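import Pool.Agent.Helper12.RQ.Goals

/-!
# Ring `Q`-homeomorphisms: from metrics to functions and the key lower bound (packet MODKEY)
-/

set_option autoImplicit false

open MeasureTheory Set Filter Topology Metric

open scoped ENNReal NNReal ContDiff

namespace Pool.Agent.Helper9.RQ

open Pool.Agent.Helper12.RQ

theorem modcap (h1 : StmtMC1) (h2 : StmtMC2) : StmtMODCAP := by
  intro n p hp G f hG hf x₀ r' r R hr' hr'r hrR hRG ρ hρ hadm hfin
  obtain ⟨ρ₁, T, hT, hρc, hρb, hle, hlow⟩ :=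
    h1 n p hp G f hG hf x₀ r' r R hr' hr'r hrR hRG ρ hρ hadm hfin
  obtain ⟨u, hul, hu01, hu1, hu0, hue⟩ := h2 n p (by linarith) ρ₁ hρc hρb
    (f '' closedBall x₀ r') {y | T ≤ infDist y (f '' closedBall x₀ R)}
    (fun γ ha hb => hlow γ ha hb)
  refine ⟨u, hul, ?_, hu01, fun x hx => hu1 _ ⟨x, hx, rfl⟩, hue.trans hle⟩
  have hfc : ContinuousOn f G := continuousOn_iff_continuous_restrict.2 hf.continuous
  have hK : IsCompact (f '' closedBall x₀ R) :=
    (isCompact_closedBall x₀ R).image_of_continuousOn (hfc.mono hRG)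
  have hKn : (f '' closedBall x₀ R).Nonempty :=
    ⟨f x₀, x₀, mem_closedBall_self (by linarith), rfl⟩
  refine HasCompactSupport.intro (K := cthickening T (f '' closedBall x₀ R))
    hK.cthickening fun y hy => hu0 y ?_
  change T ≤ infDist y (f '' closedBall x₀ R)
  by_contra hlt
  push Not at hlt
  apply hy
  rw [mem_cthickening_iff, ← ENNReal.ofReal_toReal (infEDist_ne_top hKn)]
  exact ENNReal.ofReal_le_ofReal hlt.le

theorem key (h1 : StmtMODCAP) (h2 : StmtSTAR) (h3 : StmtPOS) : StmtKEY := by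
  intro n p hn hp1 hpn G f hG hf x₀ x r R hr hrR hRG hx
  have hfc : ContinuousOn f G := continuousOn_iff_continuous_restrict.2 hf.continuous
  have hn2 : (2 : ℝ) ≤ n := by exact_mod_cast hn
  have hp : 1 < p := by linarith
  refine le_iInf fun ρ => le_iInf fun ⟨hρ, hadm⟩ => ?_
  by_cases hfin : ∫⁻ x, ρ x ^ p = ⊤
  · rw [hfin]; exact le_top
  have hfin' : ∫⁻ x, ρ x ^ p < ⊤ := lt_top_iff_ne_top.2 hfin
  have hstrict : ∀ y, ‖y - x₀‖ < r →
      segCap n p * ENNReal.ofReal (‖f y - f x₀‖ ^ (n - p)) ≤ ∫⁻ x, ρ x ^ p := by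
    intro y hy
    obtain ⟨r', h1', h2'⟩ := exists_between (max_lt hy (half_lt_self hr))
    have hr'0 : 0 < r' := lt_trans (half_pos hr) (lt_of_le_of_lt (le_max_right _ _) h1')
    have hyr' : ‖y - x₀‖ < r' := lt_of_le_of_lt (le_max_left _ _) h1'
    obtain ⟨u, hul, huc, hu01, hu1, hue⟩ :=
      h1 n p hp G f hG hf x₀ r' r R hr'0 h2' hrR hRG ρ hρ hadm hfin'
    refine (h2 n p hn hp.le hpn u hul huc hu01 (f '' closedBall x₀ r') ?_ (f x₀)
      ⟨x₀, mem_closedBall_self hr'0.le, rfl⟩ (f y)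
      ⟨y, by rw [mem_closedBall, dist_eq_norm]; exact hyr'.le, rfl⟩ ?_).trans hue
    · exact (convex_closedBall x₀ r').isPreconnected.image f
        (hfc.mono ((closedBall_subset_closedBall (by linarith)).trans hRG))
    · rintro _ ⟨z, hz, rfl⟩
      exact hu1 z hz
  -- passage to the limit along the ray
  have hxG : x ∈ G := hRG (by rw [mem_closedBall, dist_eq_norm]; linarith)
  have hcont : Tendsto (fun t : ℝ => x₀ + t • (x - x₀)) (𝓝[<] 1) (𝓝 x) := by
    have : Tendsto (fun t : ℝ => x₀ + t • (x - x₀)) (𝓝 1) (𝓝 (x₀ + (1 : ℝ) • (x - x₀))) :=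
      (Continuous.tendsto (by fun_prop) 1)
    rw [one_smul, add_sub_cancel] at this
    exact this.mono_left nhdsWithin_le_nhds
  have hfx : Tendsto (fun t : ℝ => f (x₀ + t • (x - x₀))) (𝓝[<] 1) (𝓝 (f x)) :=
    ((hfc.continuousAt (hG.mem_nhds hxG)).tendsto).comp hcont
  have hlim : Tendsto (fun t : ℝ => segCap n p *
      ENNReal.ofReal (‖f (x₀ + t • (x - x₀)) - f x₀‖ ^ (n - p))) (𝓝[<] 1)
      (𝓝 (segCap n p * ENNReal.ofReal (‖f x - f x₀‖ ^ (n - p)))) := by
    refine ENNReal.Tendsto.const_mul ?_ (Or.inr (h3 n p hn hp1 hpn).2.ne)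
    refine (ENNReal.continuous_ofReal.tendsto _).comp ?_
    have h5 : Tendsto (fun t : ℝ => ‖f (x₀ + t • (x - x₀)) - f x₀‖) (𝓝[<] 1)
        (𝓝 ‖f x - f x₀‖) := (hfx.sub_const _).norm
    exact h5.rpow_const (Or.inr (by linarith))
  refine le_of_tendsto hlim ?_
  filter_upwards [Ioo_mem_nhdsLT (show (0 : ℝ) < 1 by norm_num)] with t ht
  refine hstrict _ ?_
  rw [add_sub_cancel_left, norm_smul, Real.norm_of_nonneg ht.1.le]
  calc t * ‖x - x₀‖ ≤ t * r := mul_le_mul_of_nonneg_left hx ht.1.le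
    _ < r := by nlinarith [ht.2]

end Pool.Agent.Helper9.RQ
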